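import Mathlib

/-!
# Flat twisted connections on the lattice torus `(ℤ/l)²`

`G` is a group, `ι : Z →* G` a homomorphism from a commutative group with central image (for
instance the inclusion of a subgroup of the centre), `t : (ℤ/l)² → Z` the twist.

* `holonomy_comm` (F1): the holonomies satisfy `A * B = ι (∏ t) * (B * A)`.
* `flat_gauge_equiv` (F2): flat connections with conjugate holonomies are gauge equivalent.
* `std_flat`, `std_stabiliser` (F3): the standard solution and its stabiliser.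
* `linear_flat` (F4): the linearised statement.
-/

set_option autoImplicit false

namespace Pool.Agent.N838.Flat

variable {l : ℕ} {G : Type*} [Group G] {Z : Type*} [CommGroup Z]

/-- The unit vectors of the torus: `e 0 = (1, 0)`, `e 1 = (0, 1)`. -/
def e (j : Fin 2) : ZMod l × ZMod l := if j = 0 then (1, 0) else (0, 1)

@[simp] theorem e_zero : (e 0 : ZMod l × ZMod l) = (1, 0) := rfl
@[simp] theorem e_one : (e 1 : ZMod l × ZMod l) = (0, 1) := rfl

/-- The gauge action. -/
def gauge (h : ZMod l × ZMod l → G) (φ : ZMod l × ZMod l → Fin 2 → G) :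
    ZMod l × ZMod l → Fin 2 → G := fun y j => h y * φ y j * (h (y + e j))⁻¹

/-- `φ` is `t`-flat. -/
def IsFlat (ι : Z →* G) (t : ZMod l × ZMod l → Z) (φ : ZMod l × ZMod l → Fin 2 → G) : Prop :=
  ∀ y, φ y 0 * φ (y + e 0) 1 = ι (t y) * φ y 1 * φ (y + e 1) 0

/-- Horizontal path product from `(0,0)` to `(i,0)`. -/
def hor (φ : ZMod l × ZMod l → Fin 2 → G) : ℕ → G
  | 0 => 1
  | i + 1 => hor φ i * φ ((i : ZMod l), 0) 0

/-- Path product from `(0,0)` to `(i,j)`: first direction `0`, then direction `1`. -/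
def path (φ : ZMod l × ZMod l → Fin 2 → G) (i : ℕ) : ℕ → G
  | 0 => hor φ i
  | j + 1 => path φ i j * φ ((i : ZMod l), (j : ZMod l)) 1

/-- The holonomy in direction `0`. -/
def holA (φ : ZMod l × ZMod l → Fin 2 → G) : G := path φ l 0

/-- The holonomy in direction `1`. -/
def holB (φ : ZMod l × ZMod l → Fin 2 → G) : G := path φ 0 l

theorem path_zero (φ : ZMod l × ZMod l → Fin 2 → G) (i : ℕ) : path φ i 0 = hor φ i := rfl

theorem path_succ (φ : ZMod l × ZMod l → Fin 2 → G) (i j : ℕ) :
    path φ i (j + 1) = path φ i j * φ ((i : ZMod l), (j : ZMod l)) 1 := rfl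

theorem hor_succ (φ : ZMod l × ZMod l → Fin 2 → G) (i : ℕ) :
    hor φ (i + 1) = hor φ i * φ ((i : ZMod l), 0) 0 := rfl

theorem step_zero {ι : Z →* G} (hι : ∀ (c : Z) (g : G), ι c * g = g * ι c)
    {t : ZMod l × ZMod l → Z} {φ : ZMod l × ZMod l → Fin 2 → G}
    (hφ : IsFlat ι t φ) (i j : ℕ) :
    path φ (i + 1) j = ι (∏ k ∈ Finset.range j, t ((i : ZMod l), (k : ZMod l))) *
      (path φ i j * φ ((i : ZMod l), (j : ZMod l)) 0) := by
  induction j with
  | zero => simp [path_zero, hor_succ]
  | succ j ih =>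
    have h := hφ ((i : ZMod l), (j : ZMod l))
    have e1 : (((i : ZMod l), (j : ZMod l)) + e 0 : ZMod l × ZMod l) =
        (((i + 1 : ℕ) : ZMod l), (j : ZMod l)) := by
      rw [e_zero]; ext <;> simp
    have e2 : (((i : ZMod l), (j : ZMod l)) + e 1 : ZMod l × ZMod l) =
        ((i : ZMod l), ((j + 1 : ℕ) : ZMod l)) := by
      rw [e_one]; ext <;> simp
    rw [e1, e2] at h
    rw [path_succ, ih, path_succ, Finset.prod_range_succ, map_mul]
    calc ι (∏ k ∈ Finset.range j, t ((i : ZMod l), (k : ZMod l))) *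
          (path φ i j * φ ((i : ZMod l), (j : ZMod l)) 0) *
            φ (((i + 1 : ℕ) : ZMod l), (j : ZMod l)) 1
        = ι (∏ k ∈ Finset.range j, t ((i : ZMod l), (k : ZMod l))) * (path φ i j *
          (φ ((i : ZMod l), (j : ZMod l)) 0 * φ (((i + 1 : ℕ) : ZMod l), (j : ZMod l)) 1)) := by
          simp only [mul_assoc]
      _ = ι (∏ k ∈ Finset.range j, t ((i : ZMod l), (k : ZMod l))) * ((path φ i j *
          ι (t ((i : ZMod l), (j : ZMod l)))) * (φ ((i : ZMod l), (j : ZMod l)) 1 *
            φ ((i : ZMod l), ((j + 1 : ℕ) : ZMod l)) 0)) := by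
          rw [h]; simp only [mul_assoc]
      _ = _ := by rw [← hι]; simp only [mul_assoc]

theorem hor_add (φ : ZMod l × ZMod l → Fin 2 → G) (i : ℕ) : hor φ (i + l) = holA φ * hor φ i := by
  induction i with
  | zero => rw [zero_add]; simp [holA, path_zero, hor]
  | succ i ih =>
    rw [show i + 1 + l = (i + l) + 1 by ring, hor_succ, ih, hor_succ, mul_assoc]
    congr 3
    ext <;> simp

theorem path_add_left (φ : ZMod l × ZMod l → Fin 2 → G) (i j : ℕ) :
    path φ (i + l) j = holA φ * path φ i j := by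
  induction j with
  | zero => exact hor_add φ i
  | succ j ih =>
    rw [path_succ, ih, path_succ, mul_assoc]
    congr 3
    ext <;> simp

/-- The twist in the first `i` columns. -/
def colProd (t : ZMod l × ZMod l → Z) (i : ℕ) : Z :=
  ∏ k ∈ Finset.range i, ∏ m ∈ Finset.range l, t ((k : ZMod l), (m : ZMod l))

theorem path_l {ι : Z →* G} (hι : ∀ (c : Z) (g : G), ι c * g = g * ι c)
    {t : ZMod l × ZMod l → Z} {φ : ZMod l × ZMod l → Fin 2 → G}
    (hφ : IsFlat ι t φ) (i : ℕ) :
    path φ i l = ι (colProd t i) * (holB φ * path φ i 0) := by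
  induction i with
  | zero => simp [colProd, holB, path_zero, hor]
  | succ i ih =>
    have e1 : ((i : ZMod l), (l : ZMod l)) = ((i : ZMod l), (0 : ZMod l)) := by
      ext <;> simp
    have e2 : colProd t (i + 1) = (∏ k ∈ Finset.range l, t ((i : ZMod l), (k : ZMod l))) *
        colProd t i := by
      rw [colProd, Finset.prod_range_succ, mul_comm]; rfl
    rw [step_zero hι hφ i l, ih, path_zero, path_zero, hor_succ, e1, e2, map_mul]
    simp only [mul_assoc]

theorem path_add_right {ι : Z →* G} (hι : ∀ (c : Z) (g : G), ι c * g = g * ι c)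
    {t : ZMod l × ZMod l → Z} {φ : ZMod l × ZMod l → Fin 2 → G}
    (hφ : IsFlat ι t φ) (i j : ℕ) :
    path φ i (j + l) = ι (colProd t i) * (holB φ * path φ i j) := by
  induction j with
  | zero => rw [zero_add]; exact path_l hι hφ i
  | succ j ih =>
    have e1 : ((i : ZMod l), ((j + l : ℕ) : ZMod l)) = ((i : ZMod l), (j : ZMod l)) := by
      ext <;> simp
    rw [show j + 1 + l = (j + l) + 1 by ring, path_succ, ih, path_succ, e1]
    simp only [mul_assoc]

theorem colProd_l [NeZero l] (t : ZMod l × ZMod l → Z) : colProd t l = ∏ y, t y := by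
  have h1 : ∀ f : ZMod l → Z, ∏ k ∈ Finset.range l, f (k : ZMod l) = ∏ y, f y := by
    intro f
    refine Finset.prod_bij (fun k _ => (k : ZMod l)) (fun _ _ => Finset.mem_univ _) ?_ ?_
      (fun _ _ => rfl)
    · intro a ha b hb hab
      have := (ZMod.natCast_eq_natCast_iff' a b l).1 hab
      rwa [Nat.mod_eq_of_lt (Finset.mem_range.1 ha), Nat.mod_eq_of_lt (Finset.mem_range.1 hb)] at this
    · intro b _
      exact ⟨b.val, Finset.mem_range.2 (ZMod.val_lt b), ZMod.natCast_zmod_val b⟩
  rw [colProd, h1 (fun k => ∏ m ∈ Finset.range l, t (k, (m : ZMod l))), Fintype.prod_prod_type]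
  exact Finset.prod_congr rfl fun k _ => h1 (fun m => t (k, m))

/-- **(F1)** The commutation relation of the holonomies. -/
theorem holonomy_comm [NeZero l] {ι : Z →* G} (hι : ∀ (c : Z) (g : G), ι c * g = g * ι c)
    {t : ZMod l × ZMod l → Z} {φ : ZMod l × ZMod l → Fin 2 → G} (hφ : IsFlat ι t φ) :
    holA φ * holB φ = ι (∏ y, t y) * (holB φ * holA φ) := by
  have h1 := path_add_left φ 0 l
  rw [zero_add, path_l hι hφ l, colProd_l] at h1
  exact h1.symm

/-- The gauge transformation intertwining two flat connections with conjugate holonomies. -/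
def inter (φ φ1 : ZMod l × ZMod l → Fin 2 → G) (k : G) (i j : ℕ) : G :=
  (path φ1 i j)⁻¹ * k * path φ i j

theorem inter_add_left {φ φ1 : ZMod l × ZMod l → Fin 2 → G} {k : G}
    (hA : holA φ1 = k * holA φ * k⁻¹) (i j : ℕ) :
    inter φ φ1 k (i + l) j = inter φ φ1 k i j := by
  rw [inter, inter, path_add_left, path_add_left, hA]
  simp only [mul_inv_rev, inv_inv, mul_assoc, inv_mul_cancel_left]

theorem inter_add_right {ι : Z →* G} (hι : ∀ (c : Z) (g : G), ι c * g = g * ι c)
    {t : ZMod l × ZMod l → Z} {φ φ1 : ZMod l × ZMod l → Fin 2 → G} (hφ : IsFlat ι t φ)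
    (hφ1 : IsFlat ι t φ1) {k : G} (hB : holB φ1 = k * holB φ * k⁻¹) (i j : ℕ) :
    inter φ φ1 k i (j + l) = inter φ φ1 k i j := by
  rw [inter, inter, path_add_right hι hφ, path_add_right hι hφ1, hB]
  simp only [mul_inv_rev, inv_inv, mul_assoc]
  rw [← mul_assoc k (ι _), ← hι _ k]
  simp only [mul_assoc, inv_mul_cancel_left]

theorem periodic_mod {α : Type*} {f : ℕ → α} (hf : ∀ i, f (i + l) = f i) (i : ℕ) :
    f (i % l) = f i := by
  have h : ∀ q r : ℕ, f (r + q * l) = f r := by
    intro q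
    induction q with
    | zero => intro r; simp
    | succ q ih => intro r; rw [Nat.succ_mul, ← add_assoc, hf, ih]
  conv_rhs => rw [← Nat.mod_add_div i l, mul_comm l]
  rw [h]

/-- **(F2)** Flat connections with simultaneously conjugate holonomies are gauge equivalent; the
gauge transformation is explicit. -/
theorem flat_gauge_equiv [NeZero l] {ι : Z →* G} (hι : ∀ (c : Z) (g : G), ι c * g = g * ι c)
    {t : ZMod l × ZMod l → Z} {φ φ1 : ZMod l × ZMod l → Fin 2 → G} (hφ : IsFlat ι t φ)
    (hφ1 : IsFlat ι t φ1) {k : G} (hA : holA φ1 = k * holA φ * k⁻¹)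
    (hB : holB φ1 = k * holB φ * k⁻¹) :
    φ1 = gauge (fun y => inter φ φ1 k y.1.val y.2.val) φ := by
  have hper : ∀ i j : ℕ, inter φ φ1 k ((i : ZMod l)).val ((j : ZMod l)).val =
      inter φ φ1 k i j := by
    intro i j
    rw [ZMod.val_natCast, ZMod.val_natCast,
      periodic_mod (f := fun i => inter φ φ1 k i (j % l)) (fun i => inter_add_left hA i _),
      periodic_mod (f := fun j => inter φ φ1 k i j) (fun j => inter_add_right hι hφ hφ1 hB i j)]
  funext y d
  obtain ⟨i, j, rfl⟩ : ∃ i j : ℕ, y = ((i : ZMod l), (j : ZMod l)) :=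
    ⟨y.1.val, y.2.val, by rw [ZMod.natCast_zmod_val, ZMod.natCast_zmod_val]⟩
  have e1 : (((i : ZMod l), (j : ZMod l)) + e 0 : ZMod l × ZMod l) =
      (((i + 1 : ℕ) : ZMod l), (j : ZMod l)) := by
    rw [e_zero]; ext <;> simp
  have e2 : (((i : ZMod l), (j : ZMod l)) + e 1 : ZMod l × ZMod l) =
      ((i : ZMod l), ((j + 1 : ℕ) : ZMod l)) := by
    rw [e_one]; ext <;> simp
  fin_cases d
  · change φ1 ((i : ZMod l), (j : ZMod l)) 0 = inter φ φ1 k ((i : ZMod l)).val ((j : ZMod l)).val *
      φ ((i : ZMod l), (j : ZMod l)) 0 * (inter φ φ1 k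
        (((i : ZMod l), (j : ZMod l)) + e 0 : ZMod l × ZMod l).1.val
        (((i : ZMod l), (j : ZMod l)) + e 0 : ZMod l × ZMod l).2.val)⁻¹
    rw [e1, hper, hper, inter, inter, step_zero hι hφ, step_zero hι hφ1]
    simp only [mul_inv_rev, inv_inv, mul_assoc]
    rw [← mul_assoc k⁻¹ (ι _), ← hι _ k⁻¹]
    simp only [mul_assoc, inv_mul_cancel_left, mul_inv_cancel_left]
  · change φ1 ((i : ZMod l), (j : ZMod l)) 1 = inter φ φ1 k ((i : ZMod l)).val ((j : ZMod l)).val *
      φ ((i : ZMod l), (j : ZMod l)) 1 * (inter φ φ1 k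
        (((i : ZMod l), (j : ZMod l)) + e 1 : ZMod l × ZMod l).1.val
        (((i : ZMod l), (j : ZMod l)) + e 1 : ZMod l × ZMod l).2.val)⁻¹
    rw [e2, hper, hper, inter, inter, path_succ, path_succ]
    simp only [mul_inv_rev, inv_inv, mul_assoc]
    simp only [inv_mul_cancel_left, mul_inv_cancel_left]

/-! ## The standard solution -/

/-- The standard solution. -/
def std (A B : G) : ZMod l × ZMod l → Fin 2 → G := fun y j =>
  if j = 0 then (if y.1 = -1 then A else 1) else (if y.2 = -1 then B else 1)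

/-- The standard twist: `z` on the plaquette `(-1,-1)`. -/
def stdTwist (z : Z) : ZMod l × ZMod l → Z := fun y => if y = (-1, -1) then z else 1

theorem std_zero (A B : G) (y : ZMod l × ZMod l) : std A B y 0 = if y.1 = -1 then A else 1 := rfl

theorem std_one (A B : G) (y : ZMod l × ZMod l) : std A B y 1 = if y.2 = -1 then B else 1 := rfl

/-- **(F3)** The standard solution is flat. -/
theorem std_flat {ι : Z →* G} {A B : G} {z : Z} (h : A * B = ι z * (B * A)) :
    IsFlat ι (stdTwist z) (std A B : ZMod l × ZMod l → Fin 2 → G) := by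
  intro y
  have h1 : (y + e 0).2 = y.2 := by rw [e_zero]; simp
  have h2 : (y + e 1).1 = y.1 := by rw [e_one]; simp
  rw [std_zero, std_one, std_one, std_zero, h1, h2, stdTwist]
  by_cases ha : y.1 = -1
  · by_cases hb : y.2 = -1
    · have hy : y = (-1, -1) := Prod.ext ha hb
      rw [if_pos ha, if_pos hb, if_pos hy, h, mul_assoc]
    · have hy : y ≠ (-1, -1) := fun h0 => hb (by rw [h0])
      rw [if_pos ha, if_neg hb, if_neg hy]
      simp
  · have hy : y ≠ (-1, -1) := fun h0 => ha (by rw [h0])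
    rw [if_neg ha, if_neg hy]
    simp

theorem cast_ne_neg_one [NeZero l] {i : ℕ} (hi : i + 1 < l) : ((i : ℕ) : ZMod l) ≠ -1 := by
  intro h
  have h1 : ((i + 1 : ℕ) : ZMod l) = 0 := by
    rw [Nat.cast_add, Nat.cast_one, h, neg_add_cancel]
  rw [ZMod.natCast_eq_zero_iff] at h1
  exact absurd (Nat.le_of_dvd (Nat.succ_pos i) h1) (not_le.2 hi)

theorem cast_pred [NeZero l] : (((l - 1 : ℕ)) : ZMod l) = -1 := by
  have h1 : (((l - 1 : ℕ)) : ZMod l) + 1 = 0 := by
    have h2 : l - 1 + 1 = l := Nat.sub_add_cancel (Nat.pos_of_ne_zero (NeZero.ne l))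
    have h3 : (((l - 1 + 1 : ℕ)) : ZMod l) = 0 := by rw [h2]; simp
    rwa [Nat.cast_add, Nat.cast_one] at h3
  exact eq_neg_of_add_eq_zero_left h1

theorem holA_std [NeZero l] (A B : G) : holA (std A B : ZMod l × ZMod l → Fin 2 → G) = A := by
  have h : ∀ i : ℕ, i + 1 ≤ l → hor (std A B : ZMod l × ZMod l → Fin 2 → G) i = 1 := by
    intro i
    induction i with
    | zero => intro _; rfl
    | succ i ih =>
      intro hi
      rw [hor_succ, ih (by omega), std_zero, if_neg (cast_ne_neg_one (by omega)), mul_one]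
  obtain ⟨m, hm⟩ : ∃ m, l = m + 1 := ⟨l - 1, (Nat.sub_add_cancel (Nat.pos_of_ne_zero (NeZero.ne l))).symm⟩
  have h2 : ((m : ℕ) : ZMod l) = -1 := by
    have := cast_pred (l := l)
    rwa [show l - 1 = m by omega] at this
  rw [holA, path_zero]
  conv_lhs => rw [show hor (std A B : ZMod l × ZMod l → Fin 2 → G) l =
    hor (std A B : ZMod l × ZMod l → Fin 2 → G) (m + 1) by rw [← hm]]
  rw [hor_succ, h m (by omega), std_zero, if_pos h2, one_mul]

theorem holB_std [NeZero l] (A B : G) : holB (std A B : ZMod l × ZMod l → Fin 2 → G) = B := by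
  have h : ∀ i : ℕ, i + 1 ≤ l → path (std A B : ZMod l × ZMod l → Fin 2 → G) 0 i = 1 := by
    intro i
    induction i with
    | zero => intro _; rfl
    | succ i ih =>
      intro hi
      rw [path_succ, ih (by omega), std_one, if_neg (cast_ne_neg_one (by omega)), mul_one]
  obtain ⟨m, hm⟩ : ∃ m, l = m + 1 := ⟨l - 1, (Nat.sub_add_cancel (Nat.pos_of_ne_zero (NeZero.ne l))).symm⟩
  have h2 : ((m : ℕ) : ZMod l) = -1 := by
    have := cast_pred (l := l)
    rwa [show l - 1 = m by omega] at this
  rw [holB]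
  conv_lhs => rw [show path (std A B : ZMod l × ZMod l → Fin 2 → G) 0 l =
    path (std A B : ZMod l × ZMod l → Fin 2 → G) 0 (m + 1) by rw [← hm]]
  rw [path_succ, h m (by omega), std_one, if_pos h2, one_mul]

/-- Every flat connection with the standard twist is gauge equivalent to the standard solution,
as soon as its holonomies are conjugate to `(A, B)`. -/
theorem gauge_std [NeZero l] {ι : Z →* G} (hι : ∀ (c : Z) (g : G), ι c * g = g * ι c)
    {A B : G} {z : Z} (h : A * B = ι z * (B * A)) {φ1 : ZMod l × ZMod l → Fin 2 → G}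
    (hφ1 : IsFlat ι (stdTwist z) φ1) {k : G} (hA : holA φ1 = k * A * k⁻¹)
    (hB : holB φ1 = k * B * k⁻¹) :
    ∃ g : ZMod l × ZMod l → G, φ1 = gauge g (std A B) :=
  ⟨_, flat_gauge_equiv hι (std_flat h) hφ1 (by rw [holA_std]; exact hA)
    (by rw [holB_std]; exact hB)⟩

/-- The total standard twist is `z`. -/
theorem prod_stdTwist [NeZero l] (z : Z) : ∏ y, stdTwist (l := l) z y = z := by
  rw [Finset.prod_eq_single ((-1, -1) : ZMod l × ZMod l)]
  · simp [stdTwist]
  · intro y _ hy
    simp [stdTwist, hy]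
  · intro h
    exact absurd (Finset.mem_univ _) h

/-- **(F3)** The stabiliser of the standard solution. -/
theorem std_stabiliser [NeZero l] {A B : G} (h : ZMod l × ZMod l → G) :
    gauge h (std A B) = std A B ↔
      ∃ k : G, (∀ y, h y = k) ∧ k * A = A * k ∧ k * B = B * k := by
  constructor
  · intro hs
    have h1 : ∀ y d, h y * std A B y d = std A B y d * h (y + e d) := by
      intro y d
      have := congrFun (congrFun hs y) d
      rw [gauge, mul_inv_eq_iff_eq_mul] at this
      exact this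
    have hi : ∀ (b : ZMod l) (i : ℕ), i < l → h ((i : ZMod l), b) = h (0, b) := by
      intro b i
      induction i with
      | zero => intro _; simp
      | succ i ih =>
        intro hi
        have h2 := h1 ((i : ZMod l), b) 0
        rw [std_zero, if_neg (cast_ne_neg_one hi), mul_one, one_mul, ih (by omega)] at h2
        rw [h2]
        congr 1
        rw [e_zero]; ext <;> simp
    have hj : ∀ (a : ZMod l) (j : ℕ), j < l → h (a, (j : ZMod l)) = h (a, 0) := by
      intro a j
      induction j with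
      | zero => intro _; simp
      | succ j ih =>
        intro hi
        have h2 := h1 (a, (j : ZMod l)) 1
        rw [std_one, if_neg (cast_ne_neg_one hi), mul_one, one_mul, ih (by omega)] at h2
        rw [h2]
        congr 1
        rw [e_one]; ext <;> simp
    have hk : ∀ y, h y = h (0, 0) := by
      intro y
      have h2 := hi y.2 y.1.val (ZMod.val_lt _)
      have h3 := hj 0 y.2.val (ZMod.val_lt _)
      rw [ZMod.natCast_zmod_val] at h2 h3
      rw [← h3, ← h2]
    refine ⟨h (0, 0), hk, ?_, ?_⟩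
    · have h2 := h1 (-1, 0) 0
      rw [std_zero, if_pos rfl, hk, hk (_ + _)] at h2
      exact h2
    · have h2 := h1 (0, -1) 1
      rw [std_one, if_pos rfl, hk, hk (_ + _)] at h2
      exact h2
  · rintro ⟨k, hk, hA, hB⟩
    funext y d
    rw [gauge, hk, hk, mul_inv_eq_iff_eq_mul]
    fin_cases d
    · change k * std A B y 0 = std A B y 0 * k
      rw [std_zero]
      split_ifs
      · exact hA
      · simp
    · change k * std A B y 1 = std A B y 1 * k
      rw [std_one]
      split_ifs
      · exact hB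
      · simp

/-! ## The linearised equation -/

section Linear

variable {V : Type*} [AddCommGroup V]

/-- Path products commute with homomorphisms. -/
theorem path_map {H : Type*} [Group H] (f : G →* H) (φ : ZMod l × ZMod l → Fin 2 → G) (i j : ℕ) :
    path (fun y d => f (φ y d)) i j = f (path φ i j) := by
  have h : ∀ i, hor (fun y d => f (φ y d)) i = f (hor φ i) := by
    intro i
    induction i with
    | zero => simp [hor]
    | succ i ih => rw [hor_succ, hor_succ, ih, map_mul]
  induction j with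
  | zero => exact h i
  | succ j ih => rw [path_succ, path_succ, ih, map_mul]

variable (Ad : G → V → V) (Ad_one : ∀ v, Ad 1 v = v)
  (Ad_mul : ∀ g h v, Ad (g * h) v = Ad g (Ad h v)) (Ad_add : ∀ g v w, Ad g (v + w) = Ad g v + Ad g w)

omit [AddCommGroup V] in
include Ad_one Ad_mul in
theorem Ad_inv_left (g : G) (v : V) : Ad g⁻¹ (Ad g v) = v := by
  rw [← Ad_mul, inv_mul_cancel, Ad_one]

omit [AddCommGroup V] in
include Ad_one Ad_mul in
theorem Ad_inv_right (g : G) (v : V) : Ad g (Ad g⁻¹ v) = v := by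
  rw [← Ad_mul, mul_inv_cancel, Ad_one]

omit [Group G] in
include Ad_add in
theorem Ad_zero (g : G) : Ad g 0 = 0 := by
  have := Ad_add g 0 0
  rw [add_zero] at this
  exact left_eq_add.1 this

omit [Group G] in
include Ad_add in
theorem Ad_neg (g : G) (v : V) : Ad g (-v) = -Ad g v := by
  have := Ad_add g v (-v)
  rw [add_neg_cancel, Ad_zero Ad Ad_add] at this
  exact (neg_eq_of_add_eq_zero_right this.symm).symm

omit [Group G] in
include Ad_add in
theorem Ad_sub (g : G) (v w : V) : Ad g (v - w) = Ad g v - Ad g w := by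
  rw [sub_eq_add_neg, Ad_add, Ad_neg Ad Ad_add, ← sub_eq_add_neg]

/-- The affine permutation `x ↦ v + Ad g x`. -/
def aff (v : V) (g : G) : Equiv.Perm V where
  toFun x := v + Ad g x
  invFun x := Ad g⁻¹ (x - v)
  left_inv x := by
    change Ad g⁻¹ (v + Ad g x - v) = x
    rw [add_sub_cancel_left, Ad_inv_left Ad Ad_one Ad_mul]
  right_inv x := by
    change v + Ad g (Ad g⁻¹ (x - v)) = x
    rw [Ad_inv_right Ad Ad_one Ad_mul, add_sub_cancel]

include Ad_one Ad_mul Ad_add in
/-- **(F4)** The linearised flatness equation at a flat connection `φ` with trivial first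
cohomology of the holonomy pair: every solution is a coboundary. The subgroup `W` is any
`Ad`-invariant subgroup containing the data. -/
theorem linear_flat [NeZero l] {ι : Z →* G} (hι : ∀ (c : Z) (g : G), ι c * g = g * ι c)
    (hAdι : ∀ c v, Ad (ι c) v = v)
    {t : ZMod l × ZMod l → Z} {φ : ZMod l × ZMod l → Fin 2 → G} (hφ : IsFlat ι t φ)
    (W : AddSubgroup V) (hW : ∀ g, ∀ v ∈ W, Ad g v ∈ W)
    (hS4 : ∀ a ∈ W, ∀ b ∈ W, a - Ad (holB φ) a = b - Ad (holA φ) b →
      ∃ w ∈ W, a = w - Ad (holA φ) w ∧ b = w - Ad (holB φ) w)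
    (al : ZMod l × ZMod l → Fin 2 → V) (halW : ∀ y j, al y j ∈ W)
    (hal : ∀ y, al y 0 + Ad (φ y 0) (al (y + e 0) 1) - Ad (φ y 1) (al (y + e 1) 0) - al y 1 = 0) :
    ∃ om : ZMod l × ZMod l → V, (∀ y, om y ∈ W) ∧
      ∀ y j, al y j = om y - Ad (φ y j) (om (y + e j)) := by
  classical
  -- the connection in `G × Perm V`
  let H := G × Equiv.Perm V
  let af : V → G → H := fun v g => (g, aff Ad Ad_one Ad_mul v g)
  have af_apply : ∀ v g x, (af v g).2 x = v + Ad g x := fun _ _ _ => rfl
  have af_mul : ∀ v g w h, af v g * af w h = af (v + Ad g w) (g * h) := by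
    intro v g w h
    refine Prod.ext rfl (Equiv.ext fun x => ?_)
    change v + Ad g (w + Ad h x) = v + Ad g w + Ad (g * h) x
    rw [Ad_add, Ad_mul, add_assoc]
  have af_one : af 0 1 = 1 := by
    refine Prod.ext rfl (Equiv.ext fun x => ?_)
    change 0 + Ad 1 x = x
    rw [zero_add, Ad_one]
  have af_inv : ∀ v g, (af v g)⁻¹ = af (-Ad g⁻¹ v) g⁻¹ := by
    intro v g
    rw [inv_eq_iff_mul_eq_one, af_mul, mul_inv_cancel, Ad_neg Ad Ad_add,
      Ad_inv_right Ad Ad_one Ad_mul, add_neg_cancel, af_one]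
  let ι' : Z →* H := ι.prod 1
  have hι'af : ∀ c, ι' c = af 0 (ι c) := by
    intro c
    refine Prod.ext rfl (Equiv.ext fun x => ?_)
    change x = 0 + Ad (ι c) x
    rw [hAdι, zero_add]
  have hι' : ∀ (c : Z) (g : H), ι' c * g = g * ι' c := by
    intro c g
    refine Prod.ext (hι c g.1) ?_
    change 1 * g.2 = g.2 * 1
    rw [one_mul, mul_one]
  let φ0 : ZMod l × ZMod l → Fin 2 → H := fun y d => af 0 (φ y d)
  let φ1 : ZMod l × ZMod l → Fin 2 → H := fun y d => af (al y d) (φ y d)
  have hφ0 : IsFlat ι' t φ0 := by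
    intro y
    change af 0 (φ y 0) * af 0 (φ (y + e 0) 1) = ι' (t y) * af 0 (φ y 1) * af 0 (φ (y + e 1) 0)
    rw [hι'af, af_mul, af_mul, af_mul, hφ y]
    simp only [Ad_zero Ad Ad_add, add_zero]
  have hφ1 : IsFlat ι' t φ1 := by
    intro y
    change af (al y 0) (φ y 0) * af (al (y + e 0) 1) (φ (y + e 0) 1) =
      ι' (t y) * af (al y 1) (φ y 1) * af (al (y + e 1) 0) (φ (y + e 1) 0)
    rw [hι'af, af_mul, af_mul, af_mul, hφ y, Ad_mul, hAdι, hAdι, zero_add]
    congr 1
    have h1 := hal y
    rw [sub_sub, sub_eq_zero] at h1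
    rw [h1, add_comm]
  -- path products are affine
  have haff0 : ∀ i j, path φ0 i j = af 0 (path φ i j) := by
    have h1 : ∀ i, hor φ0 i = af 0 (hor φ i) := by
      intro i
      induction i with
      | zero => exact af_one.symm
      | succ i ih =>
        rw [hor_succ, ih, hor_succ]
        change af 0 (hor φ i) * af 0 (φ ((i : ZMod l), 0) 0) = _
        rw [af_mul, Ad_zero Ad Ad_add, add_zero]
    intro i j
    induction j with
    | zero => exact h1 i
    | succ j ih =>
      rw [path_succ, ih, path_succ]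
      change af 0 (path φ i j) * af 0 (φ ((i : ZMod l), (j : ZMod l)) 1) = _
      rw [af_mul, Ad_zero Ad Ad_add, add_zero]
  have haff1 : ∀ i j, ∃ s ∈ W, path φ1 i j = af s (path φ i j) := by
    have h1 : ∀ i, ∃ s ∈ W, hor φ1 i = af s (hor φ i) := by
      intro i
      induction i with
      | zero => exact ⟨0, W.zero_mem, af_one.symm⟩
      | succ i ih =>
        obtain ⟨s, hs, hs1⟩ := ih
        refine ⟨s + Ad (hor φ i) (al ((i : ZMod l), 0) 0), W.add_mem hs (hW _ _ (halW _ _)), ?_⟩
        rw [hor_succ, hs1, hor_succ]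
        change af s (hor φ i) * af (al ((i : ZMod l), 0) 0) (φ ((i : ZMod l), 0) 0) = _
        rw [af_mul]
    intro i j
    induction j with
    | zero => exact h1 i
    | succ j ih =>
      obtain ⟨s, hs, hs1⟩ := ih
      refine ⟨s + Ad (path φ i j) (al ((i : ZMod l), (j : ZMod l)) 1),
        W.add_mem hs (hW _ _ (halW _ _)), ?_⟩
      rw [path_succ, hs1, path_succ]
      change af s (path φ i j) * af (al ((i : ZMod l), (j : ZMod l)) 1)
        (φ ((i : ZMod l), (j : ZMod l)) 1) = _
      rw [af_mul]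
  obtain ⟨a, haW, ha⟩ := haff1 l 0
  obtain ⟨b, hbW, hb⟩ := haff1 0 l
  have hA0 : holA φ0 = af 0 (holA φ) := haff0 l 0
  have hB0 : holB φ0 = af 0 (holB φ) := haff0 0 l
  have hA1 : holA φ1 = af a (holA φ) := ha
  have hB1 : holB φ1 = af b (holB φ) := hb
  have hcomm := holonomy_comm hι' hφ1
  have hcomm0 := holonomy_comm hι hφ
  rw [hA1, hB1, hι'af, af_mul, af_mul, af_mul, ← hcomm0, zero_add, hAdι] at hcomm
  have hab : a + Ad (holA φ) b = b + Ad (holB φ) a := by
    have := congrArg (fun f : H => f.2 0) hcomm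
    simpa [af_apply, Ad_zero Ad Ad_add] using this
  obtain ⟨w, hwW, hwa, hwb⟩ := hS4 a haW b hbW (by
    rw [sub_eq_sub_iff_add_eq_add]; exact hab)
  have hconj : ∀ g c, c = w - Ad g w → af c g = af w 1 * af 0 g * (af w 1)⁻¹ := by
    intro g c hc
    rw [af_inv, af_mul, af_mul, inv_one, Ad_one, Ad_one, one_mul, mul_one, add_zero, hc,
      Ad_neg Ad Ad_add, ← sub_eq_add_neg]
  have hfin := flat_gauge_equiv hι' hφ0 hφ1 (k := af w 1)
    (by rw [hA1, hA0]; exact hconj _ _ hwa) (by rw [hB1, hB0]; exact hconj _ _ hwb)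
  have hint : ∀ i j, ∃ o ∈ W, inter φ0 φ1 (af w 1) i j = af o 1 := by
    intro i j
    obtain ⟨s, hs, hs1⟩ := haff1 i j
    refine ⟨-Ad (path φ i j)⁻¹ s + Ad (path φ i j)⁻¹ w,
      W.add_mem (W.neg_mem (hW _ _ hs)) (hW _ _ hwW), ?_⟩
    rw [inter, haff0, hs1, af_inv, af_mul, af_mul, Ad_zero Ad Ad_add, add_zero, mul_one,
      inv_mul_cancel]
  choose om homW hom using hint
  refine ⟨fun y => om y.1.val y.2.val, fun y => homW _ _, fun y j => ?_⟩
  have h1 := congrFun (congrFun hfin y) j
  simp only [gauge] at h1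
  rw [hom, hom] at h1
  change af (al y j) (φ y j) = af (om y.1.val y.2.val) 1 * af 0 (φ y j) * (af _ 1)⁻¹ at h1
  rw [af_inv, af_mul, af_mul, inv_one, Ad_one, Ad_one, one_mul, mul_one, add_zero] at h1
  have h2 := congrArg (fun f : H => f.2 0) h1
  simp only [af_apply, Ad_zero Ad Ad_add, add_zero] at h2
  rw [h2, Ad_neg Ad Ad_add, ← sub_eq_add_neg]

end Linear

end Pool.Agent.N838.Flat
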