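import Mathlib

/-!
# Clock and shift matrices in `SU(N)`

`z` is a primitive `N`-th root of unity, `A * B = z • (B * A)` in `SU(N)`.

* `twist_conj` (S1): two such pairs are conjugate by an element of `SU(N)`.
* `twist_exists` (S2): such pairs exist.
* `twist_scalar` (S3): a matrix commuting with `A` and `B` is scalar.
* `twist_cocycle` (S4): the first cohomology of the traceless matrices vanishes.
-/

set_option autoImplicit false

open Matrix

namespace Pool.Agent.N838.Twist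

variable {N : ℕ}

/-- Complex `N × N` matrices. -/
abbrev Mat (N : ℕ) : Type := Matrix (Fin N) (Fin N) ℂ

/-! ## Basic facts on unitary matrices -/

theorem dot_mulVec {A : Mat N} (hA : A ∈ unitaryGroup (Fin N) ℂ) (x y : Fin N → ℂ) :
    star (A *ᵥ x) ⬝ᵥ (A *ᵥ y) = star x ⬝ᵥ y := by
  rw [Matrix.star_mulVec, ← Matrix.dotProduct_mulVec, Matrix.mulVec_mulVec]
  have : Aᴴ * A = 1 := mem_unitaryGroup_iff'.1 hA
  rw [this, Matrix.one_mulVec]

theorem dot_self (x : Fin N → ℂ) :
    star x ⬝ᵥ x = ((∑ i, Complex.normSq (x i) : ℝ) : ℂ) := by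
  rw [dotProduct, Complex.ofReal_sum]
  refine Finset.sum_congr rfl fun i _ => ?_
  rw [Pi.star_apply, mul_comm]
  exact Complex.mul_conj (x i)

theorem dot_self_pos {x : Fin N → ℂ} (hx : x ≠ 0) : 0 < ∑ i, Complex.normSq (x i) := by
  obtain ⟨i, hi⟩ := Function.ne_iff.1 hx
  exact Finset.sum_pos' (fun j _ => Complex.normSq_nonneg _)
    ⟨i, Finset.mem_univ _, Complex.normSq_pos.2 hi⟩

theorem dot_self_ne {x : Fin N → ℂ} (hx : x ≠ 0) : star x ⬝ᵥ x ≠ 0 := by
  rw [dot_self]
  exact_mod_cast (dot_self_pos hx).ne'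

theorem eig_norm {A : Mat N} (hA : A ∈ unitaryGroup (Fin N) ℂ) {x : Fin N → ℂ} (hx : x ≠ 0)
    {a : ℂ} (h : A *ᵥ x = a • x) : star a * a = 1 := by
  have h1 := dot_mulVec hA x x
  rw [h, star_smul, smul_dotProduct, dotProduct_smul, smul_eq_mul, smul_eq_mul, ← mul_assoc] at h1
  exact mul_right_cancel₀ (dot_self_ne hx) (by rw [h1, one_mul])

theorem eig_orth {A : Mat N} (hA : A ∈ unitaryGroup (Fin N) ℂ) {x y : Fin N → ℂ}
    {a b : ℂ} (hx : A *ᵥ x = a • x) (hy : A *ᵥ y = b • y) (hab : a ≠ b)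
    (ha : star a * a = 1) : star x ⬝ᵥ y = 0 := by
  have h1 := dot_mulVec hA x y
  rw [hx, hy, star_smul, smul_dotProduct, dotProduct_smul, smul_eq_mul, smul_eq_mul] at h1
  by_contra hne
  have h2 : star a * b = 1 := by
    have : star a * b * (star x ⬝ᵥ y) = 1 * (star x ⬝ᵥ y) := by rw [one_mul]; rw [← mul_assoc] at h1; exact h1
    exact mul_right_cancel₀ hne this
  have h3 : star a ≠ 0 := by
    intro h0; rw [h0, zero_mul] at ha; exact zero_ne_one ha
  exact hab (mul_left_cancel₀ h3 (ha.trans h2.symm))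

theorem exists_eig [NeZero N] (A : Mat N) : ∃ (a : ℂ) (x : Fin N → ℂ), x ≠ 0 ∧ A *ᵥ x = a • x := by
  have hne : Nonempty (Fin N) := ⟨0⟩
  have hnt : Nontrivial (Fin N → ℂ) := inferInstance
  obtain ⟨a, ha⟩ := Module.End.exists_eigenvalue (Matrix.toLin' A)
  obtain ⟨x, hx⟩ := ha.exists_hasEigenvector
  refine ⟨a, x, hx.2, ?_⟩
  have := hx.apply_eq_smul
  simpa [Matrix.toLin'_apply] using this

theorem exists_unit {x : Fin N → ℂ} (hx : x ≠ 0) :
    ∃ c : ℂ, c ≠ 0 ∧ star (c • x) ⬝ᵥ (c • x) = 1 := by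
  have hr1 := dot_self_pos hx
  set r := ∑ i, Complex.normSq (x i) with hr
  refine ⟨((Real.sqrt r)⁻¹ : ℝ), ?_, ?_⟩
  · exact_mod_cast (inv_pos.2 (Real.sqrt_pos.2 hr1)).ne'
  · rw [star_smul, smul_dotProduct, dotProduct_smul, dot_self, ← hr, smul_eq_mul, smul_eq_mul]
    have : star (((Real.sqrt r)⁻¹ : ℝ) : ℂ) = (((Real.sqrt r)⁻¹ : ℝ) : ℂ) := Complex.conj_ofReal _
    rw [this, ← Complex.ofReal_mul, ← Complex.ofReal_mul]
    have h2 : (Real.sqrt r)⁻¹ * ((Real.sqrt r)⁻¹ * r) = 1 := by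
      have := Real.mul_self_sqrt hr1.le
      have h3 := (Real.sqrt_pos.2 hr1).ne'
      field_simp
      nlinarith
    rw [h2]; simp

/-! ## The orthonormal basis of eigenvectors -/

/-- The matrix with columns `B ^ j *ᵥ v`. -/
def cols (B : Mat N) (v : Fin N → ℂ) : Mat N := Matrix.of fun k j => ((B ^ (j : ℕ)) *ᵥ v) k

theorem mul_cols (C B : Mat N) (v : Fin N → ℂ) (k j : Fin N) :
    (C * cols B v) k j = (C *ᵥ ((B ^ (j : ℕ)) *ᵥ v)) k := by
  rfl

theorem shift_eig {A B : Mat N} {z : ℂ} (hAB : A * B = z • (B * A)) {v : Fin N → ℂ} {a : ℂ}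
    (hv : A *ᵥ v = a • v) (m : ℕ) : A *ᵥ ((B ^ m) *ᵥ v) = (a * z ^ m) • ((B ^ m) *ᵥ v) := by
  induction m with
  | zero => simpa using hv
  | succ m ih =>
    rw [pow_succ', ← Matrix.mulVec_mulVec, Matrix.mulVec_mulVec, hAB, Matrix.smul_mulVec,
      ← Matrix.mulVec_mulVec, ih, Matrix.mulVec_smul, smul_smul]
    congr 1
    ring

theorem pow_mem_u {B : Mat N} (hB : B ∈ unitaryGroup (Fin N) ℂ) (m : ℕ) :
    B ^ m ∈ unitaryGroup (Fin N) ℂ := pow_mem hB m

theorem cols_mem {A B : Mat N} {z : ℂ} (hz : IsPrimitiveRoot z N)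
    (hA : A ∈ unitaryGroup (Fin N) ℂ) (hB : B ∈ unitaryGroup (Fin N) ℂ)
    (hAB : A * B = z • (B * A)) {v : Fin N → ℂ} {a : ℂ} (hv : A *ᵥ v = a • v)
    (hv1 : star v ⬝ᵥ v = 1) : cols B v ∈ unitaryGroup (Fin N) ℂ := by
  rw [mem_unitaryGroup_iff']
  ext i j
  have h0 : (star (cols B v) * cols B v) i j =
      star ((B ^ (i : ℕ)) *ᵥ v) ⬝ᵥ ((B ^ (j : ℕ)) *ᵥ v) := rfl
  rw [h0]
  have hne : ∀ m : ℕ, (B ^ m) *ᵥ v ≠ 0 := by
    intro m h
    have := dot_mulVec (pow_mem_u hB m) v v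
    rw [h, hv1] at this
    simp at this
  by_cases hij : i = j
  · subst hij
    rw [dot_mulVec (pow_mem_u hB _), hv1, Matrix.one_apply_eq]
  · rw [Matrix.one_apply_ne hij]
    refine eig_orth hA (shift_eig hAB hv i) (shift_eig hAB hv j) ?_
      (eig_norm hA (hne i) (shift_eig hAB hv i))
    intro h
    have ha : a ≠ 0 := by
      have hv0 : v ≠ 0 := by
        rintro rfl
        simp at hv1
      have := eig_norm hA hv0 hv
      intro h0
      rw [h0, mul_zero] at this
      exact zero_ne_one this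
    have h2 := mul_left_cancel₀ ha h
    exact hij (Fin.ext (hz.pow_inj i.2 j.2 h2))

theorem mul_cols_eig {A B : Mat N} {z : ℂ} (hAB : A * B = z • (B * A)) {v : Fin N → ℂ} {a : ℂ}
    (hv : A *ᵥ v = a • v) :
    A * cols B v = cols B v * Matrix.diagonal fun j : Fin N => a * z ^ (j : ℕ) := by
  ext k j
  rw [mul_cols, shift_eig hAB hv, Matrix.mul_diagonal, Pi.smul_apply, smul_eq_mul, mul_comm]
  rfl

theorem ne_zero_of_unit {v : Fin N → ℂ} (hv1 : star v ⬝ᵥ v = 1) : v ≠ 0 := by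
  rintro rfl
  simp at hv1

/-- The constant `∏_{j < N} z ^ j`. -/
def zprod (N : ℕ) (z : ℂ) : ℂ := ∏ j : Fin N, z ^ (j : ℕ)

theorem pow_of_eig {A B : Mat N} {z : ℂ} (hz : IsPrimitiveRoot z N)
    (hA : A ∈ unitaryGroup (Fin N) ℂ) (hB : B ∈ unitaryGroup (Fin N) ℂ)
    (hAB : A * B = z • (B * A)) {v : Fin N → ℂ} {a : ℂ} (hv : A *ᵥ v = a • v)
    (hv1 : star v ⬝ᵥ v = 1) : A ^ N = (a ^ N) • (1 : Mat N) ∧ A.det = a ^ N * zprod N z := by
  have hP := cols_mem hz hA hB hAB hv hv1
  have hAP := mul_cols_eig hAB hv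
  set P := cols B v
  set D : Mat N := Matrix.diagonal fun j : Fin N => a * z ^ (j : ℕ) with hD
  have hPP : P * star P = 1 := mem_unitaryGroup_iff.1 hP
  have hA' : A = P * D * star P := by rw [← hAP, mul_assoc, hPP, mul_one]
  have hAm : ∀ m : ℕ, A ^ m * P = P * D ^ m := by
    intro m
    induction m with
    | zero => simp
    | succ m ih => rw [pow_succ, mul_assoc, hAP, ← mul_assoc, ih, mul_assoc, ← pow_succ]
  constructor
  · have h1 : D ^ N = (a ^ N) • (1 : Mat N) := by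
      rw [hD, Matrix.diagonal_pow]
      ext i j
      by_cases hij : i = j
      · subst hij
        rw [Matrix.diagonal_apply_eq, Matrix.smul_apply, Matrix.one_apply_eq, Pi.pow_apply, mul_pow,
          ← pow_mul, mul_comm (i : ℕ) N, pow_mul, hz.pow_eq_one, one_pow, mul_one, smul_eq_mul,
          mul_one]
      · rw [Matrix.diagonal_apply_ne _ hij, Matrix.smul_apply, Matrix.one_apply_ne hij, smul_zero]
    have h2 := hAm N
    rw [h1] at h2
    calc A ^ N = A ^ N * P * star P := by rw [mul_assoc, hPP, mul_one]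
      _ = (a ^ N) • (1 : Mat N) := by rw [h2, mul_smul_comm, mul_one, smul_mul_assoc, hPP]
  · rw [hA', Matrix.det_mul, Matrix.det_mul, mul_comm P.det, mul_assoc, ← Matrix.det_mul, hPP,
      Matrix.det_one, mul_one, hD, Matrix.det_diagonal, Finset.prod_mul_distrib, Finset.prod_const,
      Finset.card_univ, Fintype.card_fin, zprod]

theorem zprod_ne {z : ℂ} (hz : z ≠ 0) : zprod N z ≠ 0 :=
  Finset.prod_ne_zero_iff.2 fun _ _ => pow_ne_zero _ hz

theorem swap {A B : Mat N} {z : ℂ} (hz : z ≠ 0) (hAB : A * B = z • (B * A)) :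
    B * A = z⁻¹ • (A * B) := by
  rw [hAB, smul_smul, inv_mul_cancel₀ hz, one_smul]

theorem exists_unit_eig [NeZero N] (A : Mat N) :
    ∃ (a : ℂ) (v : Fin N → ℂ), star v ⬝ᵥ v = 1 ∧ A *ᵥ v = a • v := by
  obtain ⟨a, x, hx, hax⟩ := exists_eig A
  obtain ⟨c, _, hc⟩ := exists_unit hx
  refine ⟨a, c • x, hc, ?_⟩
  rw [Matrix.mulVec_smul, hax, smul_smul, smul_smul, mul_comm]

/-- `A ^ N` is the scalar `(∏ z ^ j)⁻¹`. -/
theorem pow_N [NeZero N] {A B : Mat N} {z : ℂ} (hz : IsPrimitiveRoot z N)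
    (hA : A ∈ specialUnitaryGroup (Fin N) ℂ) (hB : B ∈ specialUnitaryGroup (Fin N) ℂ)
    (hAB : A * B = z • (B * A)) : A ^ N = (zprod N z)⁻¹ • (1 : Mat N) := by
  obtain ⟨a, v, hv1, hv⟩ := exists_unit_eig A
  have h := pow_of_eig hz hA.1 hB.1 hAB hv hv1
  have hdet : A.det = 1 := (mem_specialUnitaryGroup_iff.1 hA).2
  have h2 : a ^ N = (zprod N z)⁻¹ := by
    rw [hdet] at h
    exact eq_inv_of_mul_eq_one_left h.2.symm
  rw [h.1, h2]

theorem exists_eig_of_pow [NeZero N] {A B : Mat N} {z : ℂ} (hz : IsPrimitiveRoot z N)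
    (hA : A ∈ specialUnitaryGroup (Fin N) ℂ) (hB : B ∈ specialUnitaryGroup (Fin N) ℂ)
    (hAB : A * B = z • (B * A)) {μ : ℂ} (hμ : μ ^ N = (zprod N z)⁻¹) :
    ∃ v : Fin N → ℂ, star v ⬝ᵥ v = 1 ∧ A *ᵥ v = μ • v := by
  obtain ⟨a, v, hv1, hv⟩ := exists_unit_eig A
  have h := pow_of_eig hz hA.1 hB.1 hAB hv hv1
  have hdet : A.det = 1 := (mem_specialUnitaryGroup_iff.1 hA).2
  have h2 : a ^ N = (zprod N z)⁻¹ := by
    rw [hdet] at h
    exact eq_inv_of_mul_eq_one_left h.2.symm
  have ha : a ≠ 0 := by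
    rintro rfl
    rw [zero_pow (NeZero.ne N)] at h2
    exact inv_ne_zero (zprod_ne (hz.ne_zero (NeZero.ne N))) h2.symm
  have h3 : (μ / a) ^ N = 1 := by
    rw [div_pow, hμ, h2, div_self]
    exact inv_ne_zero (zprod_ne (hz.ne_zero (NeZero.ne N)))
  obtain ⟨i, _, hi⟩ := hz.eq_pow_of_pow_eq_one h3
  refine ⟨(B ^ i) *ᵥ v, ?_, ?_⟩
  · rw [dot_mulVec (pow_mem_u hB.1 _), hv1]
  · rw [shift_eig hAB hv, hi, mul_div_cancel₀ _ ha]

/-- Conjugation by a unitary matrix, with arbitrary determinant. -/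
theorem twist_conj_u [NeZero N] {A B A1 B1 : Mat N} {z : ℂ} (hz : IsPrimitiveRoot z N)
    (hA : A ∈ specialUnitaryGroup (Fin N) ℂ) (hB : B ∈ specialUnitaryGroup (Fin N) ℂ)
    (hA1 : A1 ∈ specialUnitaryGroup (Fin N) ℂ) (hB1 : B1 ∈ specialUnitaryGroup (Fin N) ℂ)
    (hAB : A * B = z • (B * A)) (hAB1 : A1 * B1 = z • (B1 * A1)) :
    ∃ g ∈ unitaryGroup (Fin N) ℂ, A1 * g = g * A ∧ B1 * g = g * B := by
  have hz0 : z ≠ 0 := hz.ne_zero (NeZero.ne N)
  obtain ⟨μ, hμ⟩ := IsAlgClosed.exists_pow_nat_eq (zprod N z)⁻¹ (Nat.pos_of_ne_zero (NeZero.ne N))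
  obtain ⟨v, hv1, hv⟩ := exists_eig_of_pow hz hA hB hAB hμ
  obtain ⟨w, hw1, hw⟩ := exists_eig_of_pow hz hA1 hB1 hAB1 hμ
  have hP := cols_mem hz hA.1 hB.1 hAB hv hv1
  have hQ := cols_mem hz hA1.1 hB1.1 hAB1 hw hw1
  have hAP := mul_cols_eig hAB hv
  have hAQ := mul_cols_eig hAB1 hw
  have hBN := pow_N hz.inv hB hA (swap hz0 hAB)
  have hBN1 := pow_N hz.inv hB1 hA1 (swap hz0 hAB1)
  have hPP : cols B v * star (cols B v) = 1 := mem_unitaryGroup_iff.1 hP
  have hPP' : star (cols B v) * cols B v = 1 := mem_unitaryGroup_iff'.1 hP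
  set g : Mat N := cols B1 w * star (cols B v) with hg
  have hgP : g * cols B v = cols B1 w := by rw [hg, mul_assoc, hPP', mul_one]
  have hcan : ∀ X Y : Mat N, X * cols B v = Y * cols B v → X = Y := by
    intro X Y h
    calc X = X * cols B v * star (cols B v) := by rw [mul_assoc, hPP, mul_one]
      _ = Y := by rw [h, mul_assoc, hPP, mul_one]
  refine ⟨g, mul_mem hQ (Unitary.star_mem hP), ?_, ?_⟩
  · apply hcan
    rw [mul_assoc, hgP, mul_assoc, hAP, hAQ, ← mul_assoc, hgP]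
  · have hcol : ∀ m : ℕ, m ≤ N → g *ᵥ ((B ^ m) *ᵥ v) = (B1 ^ m) *ᵥ w := by
      have hlt : ∀ m : ℕ, m < N → g *ᵥ ((B ^ m) *ᵥ v) = (B1 ^ m) *ᵥ w := by
        intro m hm
        ext k
        have := congrFun (congrFun hgP k) ⟨m, hm⟩
        rw [mul_cols] at this
        exact this
      intro m hm
      rcases hm.lt_or_eq with h | rfl
      · exact hlt m h
      · rw [hBN, hBN1, Matrix.smul_mulVec, Matrix.smul_mulVec, Matrix.one_mulVec,
          Matrix.one_mulVec, Matrix.mulVec_smul]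
        have := hlt 0 (Nat.pos_of_ne_zero (NeZero.ne _))
        simp only [pow_zero, Matrix.one_mulVec] at this
        rw [this]
    apply hcan
    ext k j
    have e1 : (g * B * cols B v) k j = (g *ᵥ ((B ^ ((j : ℕ) + 1)) *ᵥ v)) k := by
      rw [mul_cols, pow_succ', ← Matrix.mulVec_mulVec (v := v), ← Matrix.mulVec_mulVec]
    have e2 : (B1 * g * cols B v) k j = ((B1 ^ ((j : ℕ) + 1)) *ᵥ w) k := by
      rw [mul_assoc, hgP, mul_cols, pow_succ', ← Matrix.mulVec_mulVec]
    rw [e1, e2, hcol _ j.2]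

theorem smul_mem_u {g : Mat N} (hg : g ∈ unitaryGroup (Fin N) ℂ) {c : ℂ} (hc : c * star c = 1) :
    c • g ∈ unitaryGroup (Fin N) ℂ := by
  rw [mem_unitaryGroup_iff, star_smul, smul_mul_assoc, mul_smul_comm, smul_smul, hc, one_smul]
  exact mem_unitaryGroup_iff.1 hg

/-- Every unitary matrix is a scalar multiple of an element of `SU(N)`. -/
theorem exists_smul_mem_su [NeZero N] {g : Mat N} (hg : g ∈ unitaryGroup (Fin N) ℂ) :
    ∃ c : ℂ, c ≠ 0 ∧ c * star c = 1 ∧ c • g ∈ specialUnitaryGroup (Fin N) ℂ := by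
  have hN : 0 < N := Nat.pos_of_ne_zero (NeZero.ne N)
  have hd : star g.det * g.det = 1 := by
    have h1 := congrArg Matrix.det (mem_unitaryGroup_iff'.1 hg)
    rw [Matrix.det_mul, Matrix.star_eq_conjTranspose, Matrix.det_conjTranspose, Matrix.det_one] at h1
    exact h1
  have hdn : ‖g.det‖ = 1 := by
    have h2 := congrArg norm hd
    rw [norm_mul, norm_star, norm_one] at h2
    nlinarith [norm_nonneg g.det]
  have hd0 : g.det ≠ 0 := by
    intro h0
    rw [h0, norm_zero] at hdn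
    exact zero_ne_one hdn
  obtain ⟨c, hc⟩ := IsAlgClosed.exists_pow_nat_eq (g.det)⁻¹ hN
  have hcn : ‖c‖ = 1 := by
    have h3 : ‖c‖ ^ N = 1 := by rw [← norm_pow, hc, norm_inv, hdn, inv_one]
    exact (pow_eq_one_iff_of_nonneg (norm_nonneg c) hN.ne').1 h3
  have hc0 : c ≠ 0 := by
    intro h0
    rw [h0, norm_zero] at hcn
    exact zero_ne_one hcn
  have hcc : c * star c = 1 := by
    have := Complex.mul_conj c
    rw [Complex.normSq_eq_norm_sq, hcn] at this
    simpa using this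
  refine ⟨c, hc0, hcc, ?_⟩
  rw [mem_specialUnitaryGroup_iff]
  refine ⟨smul_mem_u hg hcc, ?_⟩
  rw [Matrix.det_smul, Fintype.card_fin, hc, inv_mul_cancel₀ hd0]

/-- **(S1)** Any two twisted pairs are conjugate under `SU(N)` (matrix form). -/
theorem twist_conj_mat [NeZero N] {A B A1 B1 : Mat N} {z : ℂ} (hz : IsPrimitiveRoot z N)
    (hA : A ∈ specialUnitaryGroup (Fin N) ℂ) (hB : B ∈ specialUnitaryGroup (Fin N) ℂ)
    (hA1 : A1 ∈ specialUnitaryGroup (Fin N) ℂ) (hB1 : B1 ∈ specialUnitaryGroup (Fin N) ℂ)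
    (hAB : A * B = z • (B * A)) (hAB1 : A1 * B1 = z • (B1 * A1)) :
    ∃ g ∈ specialUnitaryGroup (Fin N) ℂ, A1 * g = g * A ∧ B1 * g = g * B := by
  obtain ⟨g, hg, h1, h2⟩ := twist_conj_u hz hA hB hA1 hB1 hAB hAB1
  obtain ⟨c, _, _, hc⟩ := exists_smul_mem_su hg
  refine ⟨c • g, hc, ?_, ?_⟩
  · rw [mul_smul_comm, smul_mul_assoc, h1]
  · rw [mul_smul_comm, smul_mul_assoc, h2]

/-- **(S1)** Any two twisted pairs in the group `SU(N)` are conjugate. -/
theorem twist_conj [NeZero N] {z : ℂ} (hz : IsPrimitiveRoot z N)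
    (A B A1 B1 : specialUnitaryGroup (Fin N) ℂ)
    (hAB : (A : Mat N) * (B : Mat N) = z • ((B : Mat N) * (A : Mat N)))
    (hAB1 : (A1 : Mat N) * (B1 : Mat N) = z • ((B1 : Mat N) * (A1 : Mat N))) :
    ∃ g : specialUnitaryGroup (Fin N) ℂ, A1 = g * A * g⁻¹ ∧ B1 = g * B * g⁻¹ := by
  obtain ⟨g, hg, h1, h2⟩ := twist_conj_mat hz A.2 B.2 A1.2 B1.2 hAB hAB1
  refine ⟨⟨g, hg⟩, ?_, ?_⟩
  · rw [eq_mul_inv_iff_mul_eq]
    exact Subtype.ext h1
  · rw [eq_mul_inv_iff_mul_eq]
    exact Subtype.ext h2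

/-! ## Commutant -/

/-- **(S3)** A matrix commuting with `A` and `B` is scalar (unitary version). -/
theorem twist_scalar_u [NeZero N] {A B : Mat N} {z : ℂ} (hz : IsPrimitiveRoot z N)
    (hA : A ∈ unitaryGroup (Fin N) ℂ) (hB : B ∈ unitaryGroup (Fin N) ℂ)
    (hAB : A * B = z • (B * A)) (X : Mat N) (hXA : X * A = A * X) (hXB : X * B = B * X) :
    ∃ c : ℂ, X = c • (1 : Mat N) := by
  obtain ⟨a, v, hv1, hv⟩ := exists_unit_eig A
  have hP := cols_mem hz hA hB hAB hv hv1
  have hPP : cols B v * star (cols B v) = 1 := mem_unitaryGroup_iff.1 hP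
  have hXv : A *ᵥ (X *ᵥ v) = a • (X *ᵥ v) := by
    rw [Matrix.mulVec_mulVec, ← hXA, ← Matrix.mulVec_mulVec, hv, Matrix.mulVec_smul]
  have hN : 0 < N := Nat.pos_of_ne_zero (NeZero.ne N)
  have ha : a ≠ 0 := by
    have := eig_norm hA (ne_zero_of_unit hv1) hv
    intro h0
    rw [h0, mul_zero] at this
    exact zero_ne_one this
  -- `X v` is orthogonal to all the other basis vectors
  have horth : ∀ j : Fin N, (j : ℕ) ≠ 0 → star ((B ^ (j : ℕ)) *ᵥ v) ⬝ᵥ (X *ᵥ v) = 0 := by
    intro j hj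
    have hne : (B ^ (j : ℕ)) *ᵥ v ≠ 0 := by
      intro h
      have := dot_mulVec (pow_mem_u hB j) v v
      rw [h, hv1] at this
      simp at this
    refine eig_orth hA (shift_eig hAB hv j) hXv ?_ (eig_norm hA hne (shift_eig hAB hv j))
    intro h
    have h2 : z ^ (j : ℕ) = 1 := mul_left_cancel₀ ha (h.trans (mul_one a).symm)
    have h3 : z ^ (j : ℕ) = z ^ 0 := by rw [h2, pow_zero]
    exact hj (hz.pow_inj j.2 hN h3)
  set c : ℂ := star v ⬝ᵥ (X *ᵥ v) with hc
  have hXv2 : X *ᵥ v = c • v := by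
    have h1 : X *ᵥ v = cols B v *ᵥ (star (cols B v) *ᵥ (X *ᵥ v)) := by
      rw [Matrix.mulVec_mulVec, hPP, Matrix.one_mulVec]
    have h2 : star (cols B v) *ᵥ (X *ᵥ v) = fun j : Fin N => if (j : ℕ) = 0 then c else 0 := by
      ext j
      have h3 : (star (cols B v) *ᵥ (X *ᵥ v)) j = star ((B ^ (j : ℕ)) *ᵥ v) ⬝ᵥ (X *ᵥ v) := rfl
      rw [h3]
      split_ifs with hj
      · rw [hj, pow_zero, Matrix.one_mulVec]
      · exact horth j hj
    rw [h1, h2]
    ext k
    have h4 : (cols B v *ᵥ fun j : Fin N => if (j : ℕ) = 0 then c else 0) k =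
        ∑ j : Fin N, cols B v k j * (if (j : ℕ) = 0 then c else 0) := rfl
    rw [h4, Finset.sum_eq_single (⟨0, hN⟩ : Fin N)]
    · simp [cols, mul_comm]
    · intro j _ hj
      rw [if_neg, mul_zero]
      intro h
      exact hj (Fin.ext h)
    · intro h
      exact absurd (Finset.mem_univ _) h
  have hXm : ∀ m : ℕ, X *ᵥ ((B ^ m) *ᵥ v) = c • ((B ^ m) *ᵥ v) := by
    intro m
    have hc' : X * B ^ m = B ^ m * X := (Commute.pow_right (show Commute X B from hXB) m)
    rw [Matrix.mulVec_mulVec, hc', ← Matrix.mulVec_mulVec, hXv2, Matrix.mulVec_smul]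
  refine ⟨c, ?_⟩
  have h5 : X * cols B v = (c • (1 : Mat N)) * cols B v := by
    ext k j
    rw [mul_cols, hXm, smul_mul_assoc, one_mul]
    rfl
  calc X = X * cols B v * star (cols B v) := by rw [mul_assoc, hPP, mul_one]
    _ = c • (1 : Mat N) := by rw [h5, mul_assoc, hPP, mul_one]

/-- A traceless matrix commuting with `A` and `B` vanishes. -/
theorem twist_traceless [NeZero N] {A B : Mat N} {z : ℂ} (hz : IsPrimitiveRoot z N)
    (hA : A ∈ unitaryGroup (Fin N) ℂ) (hB : B ∈ unitaryGroup (Fin N) ℂ)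
    (hAB : A * B = z • (B * A)) (X : Mat N) (hXA : X * A = A * X) (hXB : X * B = B * X)
    (htr : X.trace = 0) : X = 0 := by
  obtain ⟨c, rfl⟩ := twist_scalar_u hz hA hB hAB X hXA hXB
  rw [Matrix.trace_smul, Matrix.trace_one, Fintype.card_fin, smul_eq_mul, mul_eq_zero] at htr
  rcases htr with h | h
  · rw [h, zero_smul]
  · exact absurd (by exact_mod_cast h) (NeZero.ne N)

/-! ## Existence -/

/-- The cyclic shift matrix. -/
def shiftMat (N : ℕ) [NeZero N] : Mat N := Matrix.of fun i j => if i = j + 1 then 1 else 0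

/-- The clock matrix. -/
def clockMat (N : ℕ) (z : ℂ) : Mat N := Matrix.diagonal fun j : Fin N => z ^ (j : ℕ)

theorem shift_mem (N : ℕ) [NeZero N] : shiftMat N ∈ unitaryGroup (Fin N) ℂ := by
  rw [mem_unitaryGroup_iff']
  ext i j
  rw [Matrix.mul_apply, Finset.sum_eq_single (i + 1)]
  · by_cases hij : i = j
    · subst hij
      simp [shiftMat, Matrix.star_apply]
    · have : ¬ (i + 1 = j + 1) := fun h => hij (add_right_cancel h)
      simp [shiftMat, Matrix.star_apply, Matrix.one_apply_ne hij, hij]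
  · intro k _ hk
    simp [shiftMat, Matrix.star_apply, hk]
  · intro h
    exact absurd (Finset.mem_univ _) h

theorem clock_mem (N : ℕ) [NeZero N] {z : ℂ} (hz : z ^ N = 1) :
    clockMat N z ∈ unitaryGroup (Fin N) ℂ := by
  have hn : ‖z‖ = 1 := Complex.norm_eq_one_of_pow_eq_one hz (NeZero.ne N)
  have hzz : star z * z = 1 := by
    have := Complex.mul_conj z
    rw [Complex.normSq_eq_norm_sq, hn] at this
    rw [mul_comm]
    simpa using this
  rw [mem_unitaryGroup_iff']
  have h1 : star (clockMat N z) = Matrix.diagonal fun j : Fin N => star z ^ (j : ℕ) := by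
    rw [clockMat, Matrix.star_eq_conjTranspose, Matrix.diagonal_conjTranspose]
    congr 1
    ext j
    simp
  rw [h1, clockMat, Matrix.diagonal_mul_diagonal]
  ext i j
  by_cases hij : i = j
  · subst hij
    rw [Matrix.diagonal_apply_eq, Matrix.one_apply_eq, ← mul_pow, hzz, one_pow]
  · rw [Matrix.diagonal_apply_ne _ hij, Matrix.one_apply_ne hij]

theorem clock_mul_shift (N : ℕ) [NeZero N] {z : ℂ} (hz : z ^ N = 1) :
    clockMat N z * shiftMat N = z • (shiftMat N * clockMat N z) := by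
  ext i j
  rw [clockMat, Matrix.diagonal_mul, Matrix.smul_apply, Matrix.mul_diagonal, shiftMat,
    Matrix.of_apply]
  by_cases hij : i = j + 1
  · rw [if_pos hij, mul_one, one_mul, hij, Fin.val_add, smul_eq_mul, ← pow_succ',
      ← pow_eq_pow_mod _ hz]
    rcases Nat.lt_or_ge 1 N with h1 | h1
    · have : ((1 : Fin N) : ℕ) = 1 := by
        rw [Fin.val_one', Nat.mod_eq_of_lt h1]
      rw [this]
    · have hN : N = 1 := le_antisymm h1 (Nat.pos_of_ne_zero (NeZero.ne N))
      have hz1 : z = 1 := by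
        rw [hN, pow_one] at hz
        exact hz
      rw [hz1, one_pow, one_pow]
  · rw [if_neg hij, mul_zero, zero_mul, smul_zero]

/-- **(S2)** Twisted pairs exist in `SU(N)` (for every `N`-th root of unity). -/
theorem twist_exists [NeZero N] {z : ℂ} (hz : z ^ N = 1) :
    ∃ A B : specialUnitaryGroup (Fin N) ℂ,
      (A : Mat N) * (B : Mat N) = z • ((B : Mat N) * (A : Mat N)) := by
  obtain ⟨a, _, _, ha⟩ := exists_smul_mem_su (clock_mem N hz)
  obtain ⟨b, _, _, hb⟩ := exists_smul_mem_su (shift_mem N)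
  refine ⟨⟨_, ha⟩, ⟨_, hb⟩, ?_⟩
  change (a • clockMat N z) * (b • shiftMat N) = z • ((b • shiftMat N) * (a • clockMat N z))
  rw [smul_mul_assoc, mul_smul_comm, clock_mul_shift N hz, smul_mul_assoc, mul_smul_comm]
  simp only [smul_smul]
  congr 1
  ring

/-! ## Vanishing of the first cohomology -/

section Cocycle

variable {E : Type*} [AddCommGroup E] [Module ℝ E]

/-- Abstract vanishing of the first cohomology of `(ℤ/N)²` in a real representation without
invariant vectors; the primitive lies in the invariant subspace `W`. -/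
theorem cocycle_abstract (R S : E →ₗ[ℝ] E) (hRS : ∀ x, R (S x) = S (R x)) {N : ℕ} (hN : 0 < N)
    (hR : ∀ x, (R ^ N) x = x) (hS : ∀ x, (S ^ N) x = x) (W : Submodule ℝ E)
    (hWR : ∀ x ∈ W, R x ∈ W) (hWS : ∀ x ∈ W, S x ∈ W)
    (hfix : ∀ x ∈ W, R x = x → S x = x → x = 0) {al be : E} (hal : al ∈ W) (hbe : be ∈ W)
    (h : al - S al = be - R be) : ∃ om ∈ W, al = om - R om ∧ be = om - S om := by
  have hcomm : Commute R S := LinearMap.ext hRS
  have hRpW : ∀ (m : ℕ) (x : E), x ∈ W → (R ^ m) x ∈ W := by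
    intro m
    induction m with
    | zero => intro x hx; simpa using hx
    | succ m ih => intro x hx; rw [pow_succ, Module.End.mul_apply]; exact ih _ (hWR x hx)
  have hSpW : ∀ (m : ℕ) (x : E), x ∈ W → (S ^ m) x ∈ W := by
    intro m
    induction m with
    | zero => intro x hx; simpa using hx
    | succ m ih => intro x hx; rw [pow_succ, Module.End.mul_apply]; exact ih _ (hWS x hx)
  have hRR : ∀ (m : ℕ) (x : E), R ((R ^ m) x) = (R ^ (m + 1)) x := by
    intro m x; rw [pow_succ', Module.End.mul_apply]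
  have hSS : ∀ (m : ℕ) (x : E), S ((S ^ m) x) = (S ^ (m + 1)) x := by
    intro m x; rw [pow_succ', Module.End.mul_apply]
  have hRS' : ∀ (m : ℕ) (x : E), S ((R ^ m) x) = (R ^ m) (S x) := by
    intro m x
    have := (hcomm.pow_left m).eq
    exact (LinearMap.congr_fun this x).symm
  have hSR' : ∀ (m : ℕ) (x : E), R ((S ^ m) x) = (S ^ m) (R x) := by
    intro m x
    have := (hcomm.pow_right m).eq
    exact LinearMap.congr_fun this x
  -- the partial sums
  set CR : ℕ → E := fun a => ∑ i ∈ Finset.range a, (R ^ i) al with hCR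
  set CS : ℕ → E := fun b => ∑ j ∈ Finset.range b, (S ^ j) be with hCS
  have telR : ∀ a : ℕ, ∑ i ∈ Finset.range a, (R ^ i) (be - R be) = be - (R ^ a) be := by
    intro a
    induction a with
    | zero => simp
    | succ a ih =>
      rw [Finset.sum_range_succ, ih, map_sub, ← Module.End.mul_apply, ← pow_succ]
      abel
  have telS : ∀ a : ℕ, ∑ i ∈ Finset.range a, (S ^ i) (al - S al) = al - (S ^ a) al := by
    intro a
    induction a with
    | zero => simp
    | succ a ih =>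
      rw [Finset.sum_range_succ, ih, map_sub, ← Module.End.mul_apply, ← pow_succ]
      abel
  have hSCR : ∀ a, S (CR a) = CR a - (be - (R ^ a) be) := by
    intro a
    rw [hCR]
    simp only [map_sum]
    rw [← telR, ← h, ← Finset.sum_sub_distrib]
    refine Finset.sum_congr rfl fun i _ => ?_
    rw [hRS', map_sub]
    abel
  have hRCR : ∀ a, R (CR a) = CR (a + 1) - al := by
    intro a
    rw [hCR]
    simp only [map_sum]
    rw [Finset.sum_range_succ']
    simp only [hRR, pow_zero, Module.End.one_apply]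
    abel
  have hSCS : ∀ b, S (CS b) = CS (b + 1) - be := by
    intro b
    rw [hCS]
    simp only [map_sum]
    rw [Finset.sum_range_succ']
    simp only [hSS, pow_zero, Module.End.one_apply]
    abel
  have hRCS : ∀ b, R (CS b) = CS b - (al - (S ^ b) al) := by
    intro b
    rw [hCS]
    simp only [map_sum]
    rw [← telS, h, ← Finset.sum_sub_distrib]
    refine Finset.sum_congr rfl fun i _ => ?_
    rw [hSR', map_sub]
    abel
  have hCRW : ∀ a, CR a ∈ W := fun a => Submodule.sum_mem _ fun i _ => hRpW i _ hal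
  have hCSW : ∀ a, CS a ∈ W := fun a => Submodule.sum_mem _ fun i _ => hSpW i _ hbe
  have hCRN : CR N = 0 := by
    refine hfix _ (hCRW N) ?_ ?_
    · rw [hRCR]
      have : CR (N + 1) = CR N + al := by
        rw [hCR]
        simp only [Finset.sum_range_succ, hR]
      rw [this, add_sub_cancel_right]
    · rw [hSCR, hR, sub_self, sub_zero]
  have hCSN : CS N = 0 := by
    refine hfix _ (hCSW N) ?_ ?_
    · rw [hRCS, hS, sub_self, sub_zero]
    · rw [hSCS]
      have : CS (N + 1) = CS N + be := by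
        rw [hCS]
        simp only [Finset.sum_range_succ, hS]
      rw [this, add_sub_cancel_right]
  -- the cocycle
  set c : ℕ → ℕ → E := fun a b => CR a + (R ^ a) (CS b) with hc
  have hcW : ∀ a b, c a b ∈ W := fun a b => W.add_mem (hCRW a) (hRpW a _ (hCSW b))
  have hcR : ∀ a b, al + R (c a b) = c (a + 1) b := by
    intro a b
    simp only [hc]
    rw [map_add, hRCR, hRR]
    abel
  have hcS : ∀ a b, be + S (c a b) = c a (b + 1) := by
    intro a b
    simp only [hc]
    rw [map_add, hSCR, hRS', hSCS, map_sub]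
    abel
  have hcN : ∀ b, c N b = c 0 b := by
    intro b
    simp only [hc]
    rw [hCRN, hR]
    simp [hCR]
  have hcN' : ∀ a, c a N = c a 0 := by
    intro a
    simp only [hc]
    rw [hCSN]
    simp [hCS]
  have shift_sum : ∀ f : ℕ → E, f N = f 0 →
      ∑ a ∈ Finset.range N, f (a + 1) = ∑ a ∈ Finset.range N, f a := by
    intro f hf
    have h1 := Finset.sum_range_succ f N
    have h2 := Finset.sum_range_succ' f N
    rw [h1, hf] at h2
    exact (add_right_cancel h2).symm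
  set T : E := ∑ a ∈ Finset.range N, ∑ b ∈ Finset.range N, c a b with hT
  have hTR : ((N : ℝ) * N) • al + R T = T := by
    have h1 : ∑ a ∈ Finset.range N, ∑ b ∈ Finset.range N, (al + R (c a b)) = T := by
      simp only [hcR]
      rw [shift_sum (fun a => ∑ b ∈ Finset.range N, c a b)
        (Finset.sum_congr rfl fun b _ => hcN b)]
    refine Eq.trans ?_ h1
    simp only [Finset.sum_add_distrib, Finset.sum_const, Finset.card_range, hT, map_sum]
    rw [← mul_smul, ← Nat.cast_smul_eq_nsmul ℝ]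
    push_cast
    rfl
  have hTS : ((N : ℝ) * N) • be + S T = T := by
    have h1 : ∑ a ∈ Finset.range N, ∑ b ∈ Finset.range N, (be + S (c a b)) = T := by
      simp only [hcS]
      exact Finset.sum_congr rfl fun a _ => shift_sum (fun b => c a b) (hcN' a)
    refine Eq.trans ?_ h1
    simp only [Finset.sum_add_distrib, Finset.sum_const, Finset.card_range, hT, map_sum]
    rw [← mul_smul, ← Nat.cast_smul_eq_nsmul ℝ]
    push_cast
    rfl
  have hNN : ((N : ℝ) * N) ≠ 0 := by positivity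
  refine ⟨((N : ℝ) * N)⁻¹ • T, W.smul_mem _ (Submodule.sum_mem _ fun a _ =>
    Submodule.sum_mem _ fun b _ => hcW a b), ?_, ?_⟩
  · rw [map_smul, ← smul_sub]
    have : T - R T = ((N : ℝ) * N) • al := by
      rw [sub_eq_iff_eq_add]; exact hTR.symm
    rw [this, smul_smul, inv_mul_cancel₀ hNN, one_smul]
  · rw [map_smul, ← smul_sub]
    have : T - S T = ((N : ℝ) * N) • be := by
      rw [sub_eq_iff_eq_add]; exact hTS.symm
    rw [this, smul_smul, inv_mul_cancel₀ hNN, one_smul]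

end Cocycle

/-- Conjugation `X ↦ A X A*` as a real linear map. -/
def conjMap (A : Mat N) : (Mat N) →ₗ[ℝ] (Mat N) where
  toFun X := A * X * star A
  map_add' X Y := by rw [mul_add, add_mul]
  map_smul' r X := by rw [mul_smul_comm, smul_mul_assoc]; rfl

@[simp] theorem conjMap_apply (A X : Mat N) : conjMap A X = A * X * star A := rfl

theorem conjMap_pow (A X : Mat N) (m : ℕ) : ((conjMap A) ^ m) X = A ^ m * X * star (A ^ m) := by
  induction m generalizing X with
  | zero => simp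
  | succ m ih =>
    rw [pow_succ, Module.End.mul_apply, ih, conjMap_apply, pow_succ, star_mul]
    simp only [mul_assoc]

/-- **(S4)** Vanishing of the first cohomology: if `al - B al B* = be - A be A*`, with `al`, `be`
in a real space `W` of traceless matrices, invariant under conjugation by `A` and `B`, then
`al = om - A om A*`, `be = om - B om B*` for some `om ∈ W`. -/
theorem twist_cocycle [NeZero N] {A B : Mat N} {z : ℂ} (hz : IsPrimitiveRoot z N)
    (hA : A ∈ specialUnitaryGroup (Fin N) ℂ) (hB : B ∈ specialUnitaryGroup (Fin N) ℂ)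
    (hAB : A * B = z • (B * A)) (W : Submodule ℝ (Mat N)) (hW0 : ∀ X ∈ W, X.trace = 0)
    (hWA : ∀ X ∈ W, A * X * star A ∈ W) (hWB : ∀ X ∈ W, B * X * star B ∈ W)
    {al be : Mat N} (hal : al ∈ W) (hbe : be ∈ W)
    (h : al - B * al * star B = be - A * be * star A) :
    ∃ om ∈ W, al = om - A * om * star A ∧ be = om - B * om * star B := by
  have hz0 : z ≠ 0 := hz.ne_zero (NeZero.ne N)
  have hzn : z * star z = 1 := by
    have hn : ‖z‖ = 1 := Complex.norm_eq_one_of_pow_eq_one hz.pow_eq_one (NeZero.ne N)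
    have := Complex.mul_conj z
    rw [Complex.normSq_eq_norm_sq, hn] at this
    simpa using this
  have hAA : A * star A = 1 := mem_unitaryGroup_iff.1 hA.1
  have hAA' : star A * A = 1 := mem_unitaryGroup_iff'.1 hA.1
  have hBB : B * star B = 1 := mem_unitaryGroup_iff.1 hB.1
  have hBB' : star B * B = 1 := mem_unitaryGroup_iff'.1 hB.1
  have hscal : ∀ {C : Mat N} {c : ℂ}, C ∈ specialUnitaryGroup (Fin N) ℂ →
      C ^ N = c • (1 : Mat N) → ∀ X : Mat N, C ^ N * X * star (C ^ N) = X := by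
    intro C c hC hc X
    have h1 : C ^ N * star (C ^ N) = 1 := mem_unitaryGroup_iff.1 (pow_mem hC.1 N)
    have h2 : C ^ N * X = X * C ^ N := by rw [hc, smul_mul_assoc, one_mul, mul_smul_comm, mul_one]
    rw [h2, mul_assoc, h1, mul_one]
  refine cocycle_abstract (conjMap A) (conjMap B) ?_ (Nat.pos_of_ne_zero (NeZero.ne N)) ?_ ?_ W
    hWA hWB ?_ hal hbe h
  · intro X
    rw [conjMap_apply, conjMap_apply, conjMap_apply, conjMap_apply]
    have e1 : A * (B * X * star B) * star A = (A * B) * X * star (A * B) := by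
      rw [star_mul]; simp only [mul_assoc]
    have e2 : B * (A * X * star A) * star B = (B * A) * X * star (B * A) := by
      rw [star_mul]; simp only [mul_assoc]
    rw [e1, e2, hAB, star_smul, smul_mul_assoc, smul_mul_assoc, mul_smul_comm, smul_smul, hzn,
      one_smul]
  · intro X
    rw [conjMap_pow]
    exact hscal hA (pow_N hz hA hB hAB) X
  · intro X
    rw [conjMap_pow]
    exact hscal hB (pow_N hz.inv hB hA (swap hz0 hAB)) X
  · intro X hX h1 h2
    rw [conjMap_apply] at h1 h2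
    refine twist_traceless hz hA.1 hB.1 hAB X ?_ ?_ (hW0 X hX)
    · calc X * A = A * X * star A * A := by rw [h1]
        _ = A * X := by rw [mul_assoc (A * X), hAA', mul_one]
    · calc X * B = B * X * star B * B := by rw [h2]
        _ = B * X := by rw [mul_assoc (B * X), hBB', mul_one]

end Pool.Agent.N838.Twist
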